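import Pool.Agent.Y360.RR.Stm

/-!
# Perturbed Parseval identity on `ℤ/q` (helper365)
-/

open Filter Topology Finset

namespace Y365.RR

open Pool.Agent.Y360.RR

/-- Parseval -/
theorem parseval {q : ℕ} (hq : 0 < q) {ζ : ℂ} (hζ : IsPrimitiveRoot ζ q) {D : ℕ} (hD : D ≤ q)
    (v : ℕ → ℂ) :
    ∑ m ∈ range q, ‖∑ j ∈ range D, v j * ζ ^ (m * j)‖ ^ 2 = q * ∑ j ∈ range D, ‖v j‖ ^ 2 := by
  have hn : ‖ζ‖ = 1 := hζ.norm'_eq_one hq.ne'
  have hconj : ζ * (starRingEnd ℂ) ζ = 1 := by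
    rw [Complex.mul_conj, Complex.normSq_eq_norm_sq, hn]; simp
  have key : ∀ j ∈ range D, ∀ k ∈ range D,
      ∑ m ∈ range q, ζ ^ (m * j) * (starRingEnd ℂ) (ζ ^ (m * k)) =
        if j = k then (q : ℂ) else 0 := by
    intro j hj k hk
    have h1 : ∀ m, ζ ^ (m * j) * (starRingEnd ℂ) (ζ ^ (m * k)) =
        (ζ ^ j * (starRingEnd ℂ) ζ ^ k) ^ m := by
      intro m
      rw [map_pow, mul_pow, ← pow_mul, ← pow_mul, mul_comm j m, mul_comm k m]
    simp only [h1]
    split_ifs with h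
    · subst h
      rw [← mul_pow, hconj]; simp
    · have hω : ζ ^ j * (starRingEnd ℂ) ζ ^ k ≠ 1 := by
        intro h2
        apply h
        apply hζ.pow_inj (lt_of_lt_of_le (mem_range.1 hj) hD)
          (lt_of_lt_of_le (mem_range.1 hk) hD)
        calc ζ ^ j = ζ ^ j * (ζ * (starRingEnd ℂ) ζ) ^ k := by rw [hconj, one_pow, mul_one]
          _ = (ζ ^ j * (starRingEnd ℂ) ζ ^ k) * ζ ^ k := by rw [mul_pow]; ring
          _ = ζ ^ k := by rw [h2, one_mul]
      have hωq : (ζ ^ j * (starRingEnd ℂ) ζ ^ k) ^ q = 1 := by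
        rw [mul_pow, ← pow_mul, ← pow_mul, mul_comm j q, mul_comm k q, pow_mul, pow_mul,
          ← map_pow, hζ.pow_eq_one]
        simp
      rw [geom_sum_eq hω, hωq]; simp
  have hC : ((∑ m ∈ range q, ‖∑ j ∈ range D, v j * ζ ^ (m * j)‖ ^ 2 : ℝ) : ℂ) =
      ((q * ∑ j ∈ range D, ‖v j‖ ^ 2 : ℝ) : ℂ) := by
    push_cast
    have h2 : ∀ m, ((‖∑ j ∈ range D, v j * ζ ^ (m * j)‖ : ℂ)) ^ 2 =
        ∑ j ∈ range D, ∑ k ∈ range D, (v j * (starRingEnd ℂ) (v k)) *
          (ζ ^ (m * j) * (starRingEnd ℂ) (ζ ^ (m * k))) := by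
      intro m
      rw [← Complex.mul_conj', map_sum, sum_mul_sum]
      refine sum_congr rfl fun j _ => sum_congr rfl fun k _ => ?_
      rw [map_mul]; ring
    simp only [h2]
    rw [sum_comm, mul_sum]
    refine sum_congr rfl fun j hj => ?_
    rw [sum_comm]
    have h3 : ∀ k ∈ range D, ∑ m ∈ range q, (v j * (starRingEnd ℂ) (v k)) *
          (ζ ^ (m * j) * (starRingEnd ℂ) (ζ ^ (m * k))) =
          if j = k then (q : ℂ) * (v j * (starRingEnd ℂ) (v j)) else 0 := by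
      intro k hk
      rw [← mul_sum, key j hj k hk]
      split_ifs with h
      · subst h; ring
      · simp
    rw [sum_congr rfl h3, sum_ite_eq, if_pos hj, Complex.mul_conj']
  exact_mod_cast hC

theorem t_SAMP : S_SAMP := by
  intro t p q D hq hpq hDq hsm w
  obtain ⟨β, hβ⟩ : ∃ β : ℝ, β = (q : ℝ) * t - p := ⟨_, rfl⟩
  rw [← hβ] at hsm
  obtain ⟨ζ, hζd⟩ : ∃ ζ : ℂ, ζ = Complex.exp (2 * Real.pi * Complex.I * ((p : ℂ) / (q : ℂ))) :=
    ⟨_, rfl⟩
  have hζ : IsPrimitiveRoot ζ q := by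
    rw [hζd]; exact Complex.isPrimitiveRoot_exp_of_isCoprime p q hq.ne' hpq
  have hqR : (0 : ℝ) < q := by exact_mod_cast hq
  have hqC : (q : ℂ) ≠ 0 := by exact_mod_cast hq.ne'
  -- the frequency
  obtain ⟨y, hy⟩ : ∃ y : ℕ → ℂ, ∀ m, y m = 2 * Real.pi * Complex.I * (β * m / q) :=
    ⟨_, fun m => rfl⟩
  have he : ∀ m j : ℕ, e (t * m * j) = ζ ^ (m * j) * Complex.exp (y m * j) := by
    intro m j
    rw [hζd, ← Complex.exp_nat_mul, ← Complex.exp_add, hy, e, hβ]
    congr 1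
    push_cast
    field_simp
    ring
  -- the vectors
  obtain ⟨A, hA⟩ : ∃ A : ℕ → ℕ → ℂ, ∀ r m, A r m = ∑ j ∈ range D, (w j * (j : ℂ) ^ r) * ζ ^ (m * j) :=
    ⟨_, fun r m => rfl⟩
  obtain ⟨W, hW⟩ : ∃ W : ℝ, W = ∑ j ∈ range D, ‖w j‖ ^ 2 := ⟨_, rfl⟩
  have hW0 : 0 ≤ W := by rw [hW]; positivity
  have hAr : ∀ r, ∑ m ∈ range q, ‖A r m‖ ^ 2 ≤ q * (((D : ℝ) ^ r) ^ 2 * W) := by
    intro r
    simp only [hA]
    rw [parseval hq hζ hDq, hW]
    refine mul_le_mul_of_nonneg_left ?_ hqR.le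
    rw [mul_sum]
    refine sum_le_sum fun j hj => ?_
    rw [norm_mul, mul_pow, mul_comm]
    refine mul_le_mul_of_nonneg_right ?_ (by positivity)
    rw [norm_pow, Complex.norm_natCast]
    have : (j : ℝ) ≤ D := by exact_mod_cast (mem_range.1 hj).le
    gcongr
  have hA0 : ∑ m ∈ range q, ‖A 0 m‖ ^ 2 = q * W := by
    simp only [hA]
    rw [parseval hq hζ hDq, hW]
    simp
  -- series
  obtain ⟨u, hu⟩ : ∃ u : ℕ → ℕ → ℂ, ∀ r m, u r m = (y m) ^ r / (r.factorial : ℂ) * A r m :=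
    ⟨_, fun r m => rfl⟩
  have hs : ∀ m, HasSum (fun r => u r m) (∑ j ∈ range D, w j * e (t * m * j)) := by
    intro m
    have h1 : ∀ j ∈ range D, HasSum (fun r : ℕ => w j * (ζ ^ (m * j) *
        ((y m * j) ^ r / (r.factorial : ℂ)))) (w j * e (t * m * j)) := by
      intro j _
      rw [he]
      refine ((?_ : HasSum (fun r : ℕ => (y m * j) ^ r / (r.factorial : ℂ))
        (Complex.exp (y m * j))).mul_left _).mul_left _
      rw [Complex.exp_eq_exp_ℂ]
      exact NormedSpace.expSeries_div_hasSum_exp _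
    have h2 := hasSum_sum h1
    refine h2.congr_fun ?_ |> fun h => h
    intro r
    rw [hu, hA, mul_sum]
    refine sum_congr rfl fun j _ => ?_
    rw [mul_pow]; ring
  -- vectors in Euclidean space
  obtain ⟨U, hU⟩ : ∃ U : (ℕ → ℂ) → EuclideanSpace ℂ (Fin q),
      ∀ g, U g = WithLp.toLp 2 (fun i : Fin q => g i) := ⟨_, fun g => rfl⟩
  have hUn : ∀ g, ‖U g‖ ^ 2 = ∑ m ∈ range q, ‖g m‖ ^ 2 := by
    intro g
    rw [hU, EuclideanSpace.norm_sq_eq]
    simp only
    rw [Finset.sum_range]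
  have hUs : HasSum (fun r => U (u r)) (U fun m => ∑ j ∈ range D, w j * e (t * m * j)) := by
    have h1 : HasSum (fun r => fun i : Fin q => u r i)
        (fun i : Fin q => ∑ j ∈ range D, w j * e (t * (i : ℕ) * j)) :=
      Pi.hasSum.2 fun i => hs i
    have h2 := (EuclideanSpace.equiv (Fin q) ℂ).symm.hasSum'.2 h1
    simp only [hU]
    exact h2
  have hUr : ∀ r, ‖U (u r)‖ ≤ (2 * Real.pi * |β| * D) ^ r / (r.factorial : ℝ) * Real.sqrt (q * W) := by
    intro r
    have hpos : 0 ≤ (2 * Real.pi * |β| * D) ^ r / (r.factorial : ℝ) * Real.sqrt (q * W) := by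
      have := Real.pi_pos
      positivity
    refine abs_le_of_sq_le_sq' ?_ hpos |>.2
    rw [hUn, mul_pow, Real.sq_sqrt (by positivity)]
    have h1 : ∀ m ∈ range q, ‖u r m‖ ^ 2 ≤ ((2 * Real.pi * |β|) ^ r / (r.factorial : ℝ)) ^ 2 *
        ‖A r m‖ ^ 2 := by
      intro m hm
      rw [hu, norm_mul, mul_pow]
      refine mul_le_mul_of_nonneg_right ?_ (by positivity)
      rw [norm_div, norm_pow, Complex.norm_natCast, hy]
      have h2 : ‖(2 * Real.pi * Complex.I * (β * m / q) : ℂ)‖ ≤ 2 * Real.pi * |β| := by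
        have h3 : ‖(2 * Real.pi * Complex.I * (β * m / q) : ℂ)‖ = 2 * Real.pi * |β| * (m / q) := by
          simp only [norm_mul, norm_div, Complex.norm_real, Complex.norm_natCast, Complex.norm_I,
            Complex.norm_ofNat, Real.norm_eq_abs, abs_of_pos Real.pi_pos]
          ring
        rw [h3]
        have h4 : (m : ℝ) / q ≤ 1 := by
          rw [div_le_one hqR]; exact_mod_cast (mem_range.1 hm).le
        have h5 : 0 ≤ 2 * Real.pi * |β| := by have := Real.pi_pos; positivity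
        exact mul_le_of_le_one_right h5 h4
      gcongr
    refine (sum_le_sum h1).trans ?_
    rw [← mul_sum]
    calc _ ≤ ((2 * Real.pi * |β|) ^ r / (r.factorial : ℝ)) ^ 2 * (q * (((D : ℝ) ^ r) ^ 2 * W)) :=
          mul_le_mul_of_nonneg_left (hAr r) (by positivity)
      _ = _ := by rw [mul_pow (2 * Real.pi * |β|) (D : ℝ) r]; ring
  -- remove the first term
  obtain ⟨x, hx⟩ : ∃ x : ℝ, x = 2 * Real.pi * |β| * D := ⟨_, rfl⟩
  have hx0 : 0 ≤ x := by rw [hx]; have := Real.pi_pos; positivity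
  have hx1 : x ≤ 7 / 100 := by
    have h1 : x = 2 * Real.pi * (D * |β|) := by rw [hx]; ring
    have h2 : (D : ℝ) * |β| ≤ 1 / 100 := by linarith
    have h3 := Real.pi_lt_d2
    have h4 : 0 ≤ (D : ℝ) * |β| := by positivity
    rw [h1]
    nlinarith [Real.pi_pos]
  have hex : Real.exp x ≤ 3 / 2 := by
    have h1 := Real.exp_bound_div_one_sub_of_interval hx0 (by linarith)
    refine h1.trans ?_
    rw [div_le_iff₀ (by linarith)]
    linarith
  obtain ⟨N, hN⟩ : ∃ N : ℝ, N = Real.sqrt (q * W) := ⟨_, rfl⟩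
  have hN0 : 0 ≤ N := by rw [hN]; positivity
  have hN2 : N ^ 2 = q * W := by rw [hN, Real.sq_sqrt (by positivity)]
  have hdiff : ‖U (fun m => ∑ j ∈ range D, w j * e (t * m * j)) - U (u 0)‖ ≤ N / 2 := by
    have h1 : HasSum (fun r => U (u (r + 1)))
        (U (fun m => ∑ j ∈ range D, w j * e (t * m * j)) - U (u 0)) := by
      have := (hasSum_nat_add_iff' 1).2 hUs
      simpa using this
    have h2 : HasSum (fun r : ℕ => x ^ r / (r.factorial : ℝ) * N) (Real.exp x * N) := by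
      refine HasSum.mul_right _ ?_
      rw [Real.exp_eq_exp_ℝ]
      exact NormedSpace.expSeries_div_hasSum_exp _
    have h3 : HasSum (fun r : ℕ => x ^ (r + 1) / ((r + 1).factorial : ℝ) * N)
        (Real.exp x * N - N) := by
      have := (hasSum_nat_add_iff' 1).2 h2
      simpa using this
    refine (h1.norm_le_of_bounded h3 fun r => ?_).trans ?_
    · rw [hx, hN]; exact hUr (r + 1)
    · nlinarith
  have hU0 : ‖U (u 0)‖ = N := by
    have h1 : ‖U (u 0)‖ ^ 2 = N ^ 2 := by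
      rw [hUn, hN2, ← hA0]
      refine sum_congr rfl fun m _ => ?_
      rw [hu]; simp
    exact (pow_left_inj₀ (norm_nonneg _) hN0 two_ne_zero).1 h1
  obtain ⟨V', hV'⟩ : ∃ V' : ℝ, V' = ‖U (fun m => ∑ j ∈ range D, w j * e (t * m * j))‖ := ⟨_, rfl⟩
  have hV2 : ∑ m ∈ range q, ‖∑ j ∈ range D, w j * e (t * m * j)‖ ^ 2 = V' ^ 2 := by
    rw [hV', hUn]
  have hV0 : 0 ≤ V' := by rw [hV']; exact norm_nonneg _
  have hlow : N / 2 ≤ V' := by
    have := norm_sub_norm_le (U (u 0)) (U (fun m => ∑ j ∈ range D, w j * e (t * m * j)))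
    rw [norm_sub_rev] at this
    rw [hU0, ← hV'] at this
    linarith
  have hup : V' ≤ 2 * N := by
    have := norm_sub_norm_le (U (fun m => ∑ j ∈ range D, w j * e (t * m * j))) (U (u 0))
    rw [hU0, ← hV'] at this
    linarith
  rw [hV2, ← hW]
  constructor
  · nlinarith
  · nlinarith

end Y365.RR
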